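import Mathlib

/-!
# Vertices of odd degree in a graph of girth five with a small vertex cover
-/

set_option autoImplicit false
set_option linter.unusedSectionVars false

namespace Pool.Agent.Q253.VC

open Finset

variable {V : Type} [Fintype V] [DecidableEq V] (G : SimpleGraph V) [DecidableRel G.Adj]

/-- the assumptions -/
structure Hyp (X : Finset V) : Prop where
  cov : ∀ x y, G.Adj x y → x ∈ X ∨ y ∈ X
  three : ∀ x y, G.Adj x y → 3 ≤ G.degree x
  tri : ∀ a b c, G.Adj a b → G.Adj b c → G.Adj c a → False
  quad : ∀ a b c d, a ≠ c → b ≠ d → G.Adj a b → G.Adj b c → G.Adj c d → G.Adj d a → False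

/-- the neighbours of odd degree outside of `X` -/
def ro (X : Finset V) (x : V) : Finset V :=
  (G.neighborFinset x \ X).filter (fun y => Odd (G.degree y))

/-- the neighbours of even degree outside of `X` -/
def re (X : Finset V) (x : V) : Finset V :=
  (G.neighborFinset x \ X).filter (fun y => ¬ Odd (G.degree y))

/-- the neighbours in `X` -/
def ri (X : Finset V) (x : V) : Finset V := G.neighborFinset x ∩ X

variable {G} {X : Finset V}

theorem deg_eq (x : V) : G.degree x = (ro G X x).card + (re G X x).card + (ri G X x).card := by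
  unfold ro re ri
  rw [card_filter_add_card_filter_not, add_comm, card_inter_add_card_sdiff]
  rfl

theorem Hyp.ineq (h : Hyp G X) {x : V} (hx : x ∈ X) :
    2 * (ro G X x).card + 3 * (re G X x).card + (ri G X x).card + 1 ≤ X.card := by
  have h1 : (G.neighborFinset x \ X).biUnion (fun y => (G.neighborFinset y).erase x) ∪
      ri G X x ⊆ X.erase x := by
    intro z hz
    rcases mem_union.1 hz with hz | hz
    · obtain ⟨y, hy, hz⟩ := mem_biUnion.1 hz
      obtain ⟨hzx, hz⟩ := mem_erase.1 hz
      obtain ⟨hy, hyX⟩ := mem_sdiff.1 hy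
      rw [SimpleGraph.mem_neighborFinset] at hz
      exact mem_erase.2 ⟨hzx, (h.cov _ _ hz).resolve_left hyX⟩
    · obtain ⟨hz, hzX⟩ := mem_inter.1 hz
      rw [SimpleGraph.mem_neighborFinset] at hz
      exact mem_erase.2 ⟨hz.ne', hzX⟩
  have h2 : Disjoint ((G.neighborFinset x \ X).biUnion (fun y => (G.neighborFinset y).erase x))
      (ri G X x) := by
    rw [disjoint_left]
    intro z hz hz'
    obtain ⟨y, hy, hz⟩ := mem_biUnion.1 hz
    have hy := (mem_sdiff.1 hy).1
    have hz := (mem_erase.1 hz).2
    have hz' := (mem_inter.1 hz').1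
    rw [SimpleGraph.mem_neighborFinset] at hy hz hz'
    exact h.tri x y z hy hz hz'.symm
  have h3 : ((G.neighborFinset x \ X).biUnion (fun y => (G.neighborFinset y).erase x)).card =
      ∑ y ∈ G.neighborFinset x \ X, ((G.neighborFinset y).erase x).card := by
    refine card_biUnion ?_
    intro y hy y' hy' hne
    rw [Function.onFun, disjoint_left]
    intro z hz hz'
    have hy := (mem_sdiff.1 hy).1
    have hy' := (mem_sdiff.1 hy').1
    obtain ⟨hzx, hz⟩ := mem_erase.1 hz
    have hz' := (mem_erase.1 hz').2
    rw [SimpleGraph.mem_neighborFinset] at hy hy' hz hz'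
    exact h.quad x y z y' hzx.symm hne hy hz hz'.symm hy'.symm
  have h4 : 2 * (ro G X x).card + 3 * (re G X x).card ≤
      ∑ y ∈ G.neighborFinset x \ X, ((G.neighborFinset y).erase x).card := by
    rw [← sum_filter_add_sum_filter_not (G.neighborFinset x \ X) (fun y => Odd (G.degree y))]
    refine add_le_add ?_ ?_
    · rw [mul_comm, ← smul_eq_mul]
      refine card_nsmul_le_sum _ _ _ ?_
      intro y hy
      have hy := (mem_sdiff.1 (mem_filter.1 hy).1).1
      rw [SimpleGraph.mem_neighborFinset] at hy
      have hm : x ∈ G.neighborFinset y := by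
        rw [SimpleGraph.mem_neighborFinset]
        exact hy.symm
      rw [card_erase_of_mem hm, SimpleGraph.card_neighborFinset_eq_degree]
      have := h.three y x hy.symm
      omega
    · rw [mul_comm, ← smul_eq_mul]
      refine card_nsmul_le_sum _ _ _ ?_
      intro y hy
      obtain ⟨hy, hodd⟩ := mem_filter.1 hy
      have hy := (mem_sdiff.1 hy).1
      rw [SimpleGraph.mem_neighborFinset] at hy
      have hm : x ∈ G.neighborFinset y := by
        rw [SimpleGraph.mem_neighborFinset]
        exact hy.symm
      rw [card_erase_of_mem hm, SimpleGraph.card_neighborFinset_eq_degree]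
      have := h.three y x hy.symm
      rw [Nat.not_odd_iff_even] at hodd
      obtain ⟨k, hk⟩ := hodd
      omega
  have h5 := card_le_card h1
  rw [card_union_of_disjoint h2, h3, card_erase_of_mem hx] at h5
  have h6 : 0 < X.card := card_pos.2 ⟨x, hx⟩
  omega

/-- the odd vertices outside of `X` -/
def oY (G : SimpleGraph V) [DecidableRel G.Adj] (X : Finset V) : Finset V :=
  Xᶜ.filter (fun y => Odd (G.degree y))

/-- the odd vertices in `X` -/
def oX (G : SimpleGraph V) [DecidableRel G.Adj] (X : Finset V) : Finset V :=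
  X.filter (fun y => Odd (G.degree y))

theorem Hyp.double (h : Hyp G X) : ∑ x ∈ X, (ro G X x).card = ∑ y ∈ oY G X, G.degree y := by
  have h1 := sum_card_bipartiteAbove_eq_sum_card_bipartiteBelow (s := X) (t := oY G X)
    (fun x y => G.Adj x y)
  refine Eq.trans (sum_congr rfl fun x _ => ?_) (h1.trans (sum_congr rfl fun y hy => ?_))
  · congr 1
    ext y
    rw [mem_bipartiteAbove]
    unfold ro oY
    rw [mem_filter, mem_filter, mem_sdiff, mem_compl, SimpleGraph.mem_neighborFinset]
    tauto
  · rw [← SimpleGraph.card_neighborFinset_eq_degree]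
    congr 1
    ext x
    rw [mem_bipartiteBelow, SimpleGraph.mem_neighborFinset]
    constructor
    · rintro ⟨_, h2⟩
      exact h2.symm
    · intro h2
      refine ⟨(h.cov _ _ h2).resolve_left ?_, h2.symm⟩
      have := (mem_filter.1 hy).1
      exact mem_compl.1 this

theorem odd_pos {y : V} (h : Odd (G.degree y)) : ∃ x, G.Adj y x := by
  have h1 : 0 < G.degree y := h.pos
  exact (G.degree_pos_iff_exists_adj y).1 h1

theorem Hyp.oY_three (h : Hyp G X) {y : V} (hy : y ∈ oY G X) : 3 ≤ G.degree y := by
  obtain ⟨x, hx⟩ := odd_pos (mem_filter.1 hy).2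
  exact h.three _ _ hx

/-- **The counting.** -/
theorem Hyp.main (h : Hyp G X) (hX : X.card ≤ 9) :
    (univ.filter (fun v => Odd (G.degree v))).card ≤ 16 ∨
    ((∀ y, y ∉ X → G.degree y = 0 ∨ G.degree y = 3) ∧
      ∀ x ∈ X, (G.neighborFinset x \ X).card = 3 ∧ Even (ri G X x).card) := by
  by_cases hc : (univ.filter (fun v => Odd (G.degree v))).card ≤ 16
  · exact Or.inl hc
  right
  have k1 : (univ.filter (fun v => Odd (G.degree v))).card = (oX G X).card + (oY G X).card := by
    unfold oX oY
    rw [← card_union_of_disjoint]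
    · congr 1
      ext v
      simp only [mem_filter, mem_univ, true_and, mem_union, mem_compl]
      tauto
    · rw [disjoint_left]
      intro v hv hv'
      exact (mem_compl.1 (mem_filter.1 hv').1) (mem_filter.1 hv).1
  have k2 : Even (univ.filter (fun v => Odd (G.degree v))).card := G.even_card_odd_degree_vertices
  have k3 : (oX G X).card ≤ X.card := card_filter_le _ _
  have k4 : 3 * (oY G X).card ≤ ∑ x ∈ X, (ro G X x).card := by
    rw [h.double, mul_comm, ← smul_eq_mul]
    exact card_nsmul_le_sum _ _ _ fun y hy => h.oY_three hy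
  have k5 : ∀ x ∈ X, (ro G X x).card + (if Odd (G.degree x) then 1 else 0) ≤ 4 := by
    intro x hx
    have h1 := h.ineq hx
    have h2 := deg_eq (G := G) (X := X) x
    split_ifs with h3
    · by_contra h4
      have h5 : (ro G X x).card = 4 := by omega
      have h6 : G.degree x = 4 := by omega
      rw [h6] at h3
      exact absurd h3 (by decide)
    · omega
  have k6 : ∑ x ∈ X, (ro G X x).card + (oX G X).card ≤ 4 * X.card := by
    have h1 := sum_le_card_nsmul X _ 4 k5
    rw [sum_add_distrib, sum_boole] at h1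
    simp only [smul_eq_mul, Nat.cast_id] at h1
    rw [mul_comm]
    exact h1
  obtain ⟨t, ht⟩ := k2
  have k7 : (oX G X).card = 9 ∧ (oY G X).card = 9 ∧ X.card = 9 ∧
      ∑ x ∈ X, (ro G X x).card = 27 := by omega
  obtain ⟨j1, j2, j3, j4⟩ := k7
  have k8 : oX G X = X := eq_of_subset_of_card_le (filter_subset _ _) (by omega)
  have k9 : ∀ x ∈ X, Odd (G.degree x) := by
    intro x hx
    rw [← k8] at hx
    exact (mem_filter.1 hx).2
  have k10 : ∀ x ∈ X, (ro G X x).card ≤ 3 := by
    intro x hx
    have h1 := k5 x hx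
    rw [if_pos (k9 x hx)] at h1
    omega
  have k11 : ∀ x ∈ X, (ro G X x).card = 3 := by
    have h1 : ∑ x ∈ X, (ro G X x).card = ∑ x ∈ X, 3 := by
      rw [j4, sum_const, j3]
      rfl
    intro x hx
    exact (sum_eq_sum_iff_of_le k10).1 h1 x hx
  have k12 : ∀ x ∈ X, (re G X x).card = 0 := by
    intro x hx
    have h1 := h.ineq hx
    have h2 := k11 x hx
    omega
  have k13 : ∀ y ∈ oY G X, G.degree y = 3 := by
    have h1 : ∑ y ∈ oY G X, 3 = ∑ y ∈ oY G X, G.degree y := by
      rw [← h.double, j4, sum_const, j2]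
      rfl
    intro y hy
    exact ((sum_eq_sum_iff_of_le fun y hy => h.oY_three hy).1 h1 y hy).symm
  refine ⟨fun y hy => ?_, fun x hx => ⟨?_, ?_⟩⟩
  · by_cases hodd : Odd (G.degree y)
    · exact Or.inr (k13 y (mem_filter.2 ⟨mem_compl.2 hy, hodd⟩))
    · left
      by_contra h0
      obtain ⟨x, hx⟩ := (G.degree_pos_iff_exists_adj y).1 (Nat.pos_of_ne_zero h0)
      have hxX := (h.cov _ _ hx).resolve_left hy
      have h1 := k12 x hxX
      rw [card_eq_zero] at h1
      have h2 : y ∈ re G X x := by
        unfold re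
        rw [mem_filter, mem_sdiff, SimpleGraph.mem_neighborFinset]
        exact ⟨⟨hx.symm, hy⟩, hodd⟩
      rw [h1] at h2
      exact absurd h2 (notMem_empty _)
  · have h1 : (ro G X x).card + (re G X x).card = (G.neighborFinset x \ X).card := by
      unfold ro re
      exact card_filter_add_card_filter_not _
    rw [← h1, k11 x hx, k12 x hx]
  · have h1 := deg_eq (G := G) (X := X) x
    have h2 := k9 x hx
    rw [h1, k11 x hx, k12 x hx] at h2
    obtain ⟨k, hk⟩ := h2
    exact ⟨k - 1, by omega⟩

end Pool.Agent.Q253.VC
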